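import Pool.Agent.Helper45_FDC.Final

/-!
# MP_19ba80_al: Property A does not imply weak finite decomposition complexity

The first Grigorchuk group is a countable (finitely generated, amenable) group with Property A
and without weak finite decomposition complexity.

Definitions: `Pool/Agent/Helper45_FDC/Defs.lean` (metric families, weak finite decomposition
complexity, Property A, proper left-invariant metrics) and `Pool/Agent/Helper45_Grig/Defs.lean`
(the first Grigorchuk group `GG`, as a group of permutations of the vertices `List Bool` of the
binary rooted tree).

Proof. Let `X` be a connected unbounded locally finite graph with a coarse embedding
`X × X → X`. Let `D_n` be the mod 2 cellular chain complex of the `n`-fold product of the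
1-dimensional complex `X`. Call a metric family `𝒱` negligible if for every `n` there is a
refinement (a chain map `κ : D_n → D_n` over a coarse embedding of `X^n` into itself, respecting
the degree in each factor) such that for each uniformly coarsely embedded `S ⊆ X^n → V ∈ 𝒱` there
is a degree one operator `h` with uniformly controlled supports for which `κ + ∂h + h∂` maps cells
of degree less than `n` to chains avoiding `S`. Bounded families are negligible
(`neg_of_bounded`). If `𝒱` is `(d, r)`-decomposable over negligible families for all `r`, then
adding the colours one at a time gives operators avoiding `S` in degrees less than `n - d`
(`union_step`, `union_range`); splitting a factor by `X × X → X` and truncating to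
1-dimensional cells (`merge`) improves this to degrees less than `n` (`neg_of_range`). So all
families with weak finite decomposition complexity are negligible, but `{X}` is not, by the
augmentation (`not_neg`). For the Grigorchuk group `G` the coarse embedding `G × G → G` is
`(g, h) ↦ (g, h t)` with `t` in a finite subgroup, and amenability follows from
subexponential growth (Bartholdi's contraction argument).
-/

namespace Pool.Agent.Results.MP_19ba80_al.GrigorchukNotWeakFDC

open Helper45.FDC Helper45.Grig

/-- The first Grigorchuk group `GG` is countable, it has proper left-invariant metrics, and for
each of them it has Property A and does not have weak finite decomposition complexity. -/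
theorem result :
    Countable GG ∧ (∃ m : MetricSpace GG, ProperLeftInvariant GG m) ∧
      ∀ m : MetricSpace GG, ProperLeftInvariant GG m →
        PropertyA GG m ∧ ¬ HasWeakFDC (single GG m) :=
  grig_main

end Pool.Agent.Results.MP_19ba80_al.GrigorchukNotWeakFDC
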