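import Pool.Agent.Helper45_FDC.Final

/-!
# MP_19ba80_al: groups containing their own square do not have weak FDC

No finitely generated infinite group `G` with an injective homomorphism `G × G → G` has weak
finite decomposition complexity. For example this holds for Thompson's group `F`.

Definitions: `Pool/Agent/Helper45_FDC/Defs.lean` (metric families, weak finite decomposition
complexity, proper left-invariant metrics). The proof is the one outlined in the file
`GrigorchukNotWeakFDC.lean`: an unbounded connected locally finite graph `X` with a coarse
embedding `X × X → X` does not have weak finite decomposition complexity.
-/

namespace Pool.Agent.Results.MP_19ba80_al.SquareNotWeakFDC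

open Helper45.FDC

/-- A finitely generated infinite group `G` with an injective homomorphism `G × G → G` does not
have weak finite decomposition complexity (for any proper left-invariant metric). -/
theorem result (G : Type) [Group G] (hfg : Group.FG G) (hinf : Infinite G)
    (φ : G × G →* G) (hφ : Function.Injective φ)
    (m : MetricSpace G) (hm : ProperLeftInvariant G m) : ¬ HasWeakFDC (single G m) :=
  square_not_weakFDC G hfg hinf φ hφ m hm

end Pool.Agent.Results.MP_19ba80_al.SquareNotWeakFDC
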